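import Mathlib
import Pool.Agent.Helper4.Final

set_option autoImplicit false
open scoped Pointwise

namespace Pool.Agent.Results.MP_6c5a21_nt.SandersHalf

/-- For every `C > 0` there are `K` and `N` such that for all `n ≥ N` and all `A ⊆ F_2^n` of
density greater than `1/2 - C/√n`, the sumset `A + A` contains a linear subspace of codimension
at most `K`. -/
theorem result :
    ∀ C : ℝ, 0 < C → ∃ K N : ℕ, ∀ n : ℕ, N ≤ n → ∀ A : Finset (Fin n → ZMod 2),
      (A.card : ℝ) / 2 ^ n > 1 / 2 - C / Real.sqrt n →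
      ∃ V : Submodule (ZMod 2) (Fin n → ZMod 2),
        n ≤ Module.finrank (ZMod 2) V + K ∧
        (V : Set (Fin n → ZMod 2)) ⊆ ((A + A : Finset (Fin n → ZMod 2)) : Set (Fin n → ZMod 2)) := by
  intro C hC
  refine ⟨⌊20000 * C ^ 2⌋₊ + 1, ⌊4 * C ^ 2⌋₊ + 1, ?_⟩
  intro n hn A hdens
  have hn0 : 0 < n := by omega
  have hn' : (0:ℝ) < n := by exact_mod_cast hn0
  have hn4 : 4 * C ^ 2 < n := by
    have h1 := Nat.lt_floor_add_one (4 * C ^ 2)
    have h2 : ((⌊4 * C ^ 2⌋₊ + 1 : ℕ) : ℝ) ≤ n := by exact_mod_cast hn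
    push_cast at h2
    linarith
  have hs : 0 < Real.sqrt n := Real.sqrt_pos.2 hn'
  have hs2 : Real.sqrt n ^ 2 = n := Real.sq_sqrt hn'.le
  have hCs : C / Real.sqrt n < 1 / 2 := by
    rw [div_lt_div_iff₀ hs (by norm_num)]
    by_contra h
    push Not at h
    nlinarith
  have hA : A.Nonempty := by
    rw [Finset.nonempty_iff_ne_empty]
    intro h
    rw [h] at hdens
    simp at hdens
    linarith
  have h2n : (0:ℝ) < 2 ^ n := by positivity
  have hcard : (1 / 2 - C / Real.sqrt n) * 2 ^ n ≤ A.card := by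
    have := (lt_div_iff₀ h2n).1 hdens
    linarith
  obtain ⟨V, hV, hV2⟩ := Pool.Agent.Helper4.subspace_in_sumset A hA (C / Real.sqrt n)
      (by positivity) hcard (⌊20000 * C ^ 2⌋₊ + 1) (by
        have h1 : 20000 * (C / Real.sqrt n) ^ 2 * n = 20000 * C ^ 2 := by
          rw [div_pow, Real.sq_sqrt hn'.le]; field_simp
        rw [h1]
        push_cast
        exact Nat.lt_floor_add_one (20000 * C ^ 2))
  exact ⟨V, hV, fun v hv => hV2 v hv⟩

end Pool.Agent.Results.MP_6c5a21_nt.SandersHalf
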